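import Mathlib
import Pool.Agent.H27.Sr1

set_option autoImplicit false

namespace Pool.Agent.Results.MP_0d3a63_an.NotSR

open Filter Topology Set Pool.Agent.H27

/-- The closed unit ball of `X` with the relative weak topology. -/
abbrev WeakBall (𝕜 X : Type) [RCLike 𝕜] [NormedAddCommGroup X] [NormedSpace 𝕜 X] : Type :=
  {x : WeakSpace 𝕜 X // ‖(toWeakSpace 𝕜 X).symm x‖ ≤ 1}

/-- The super alternative Daugavet property. -/
def SuperADP (𝕜 X : Type) [RCLike 𝕜] [NormedAddCommGroup X] [NormedSpace 𝕜 X] : Prop :=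
  ∀ x : X, ‖x‖ = 1 → ∀ W : Set (WeakBall 𝕜 X), IsOpen W →
    (∃ y ∈ W, ‖(toWeakSpace 𝕜 X).symm y.1‖ = 1) →
    IsLUB {r : ℝ | ∃ y ∈ W, ∃ θ : 𝕜, ‖θ‖ = 1 ∧ r = ‖x + θ • (toWeakSpace 𝕜 X).symm y.1‖} 2

/-- The slice `S(C, f, α)`. -/
def slice {𝕜 X : Type} [RCLike 𝕜] [NormedAddCommGroup X] [NormedSpace 𝕜 X] (C : Set X)
    (f : X →L[𝕜] 𝕜) (α : ℝ) : Set X :=
  {x ∈ C | sSup ((fun y => RCLike.re (f y)) '' C) - α < RCLike.re (f x)}

/-- Strong regularity. -/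
def StronglyRegular (𝕜 X : Type) [RCLike 𝕜] [NormedAddCommGroup X] [NormedSpace 𝕜 X]
    [NormedSpace ℝ X] : Prop :=
  ∀ C : Set X, C.Nonempty → IsClosed C → Bornology.IsBounded C → Convex ℝ C → ∀ ε : ℝ, 0 < ε →
    ∃ (n : ℕ) (f : Fin n → X →L[𝕜] 𝕜) (α l : Fin n → ℝ), (∀ i, f i ≠ 0 ∧ 0 < α i ∧ 0 ≤ l i) ∧
      ∑ i, l i = 1 ∧
      Metric.diam {z | ∃ x : Fin n → X, (∀ i, x i ∈ slice C (f i) (α i)) ∧ z = ∑ i, l i • x i} < ε

theorem hyp {𝕜 X : Type} [RCLike 𝕜] [NormedAddCommGroup X] [NormedSpace 𝕜 X]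
    (hX : ¬ FiniteDimensional 𝕜 X) (h : SuperADP 𝕜 X) (f g : X →L[𝕜] 𝕜) (c r : ℝ) {w : X}
    (w1 : ‖w‖ ≤ 1) (w2 : c < RCLike.re (f w)) (w3 : ‖g w‖ < r) (x : X) (hx : ‖x‖ = 1) (η : ℝ)
    (hη : 0 < η) : ∃ y ∈ {y | ‖y‖ ≤ 1 ∧ c < RCLike.re (f y) ∧ ‖g y‖ < r}, ∃ θ : 𝕜, ‖y‖ ≤ 1 ∧
      ‖θ‖ = 1 ∧ 2 - η < ‖x + θ • y‖ := by
  have hc : ∀ f : X →L[𝕜] 𝕜, Continuous fun y : WeakBall 𝕜 X => f ((toWeakSpace 𝕜 X).symm y.1) :=
    fun f => (WeakBilin.eval_continuous (topDualPairing 𝕜 X).flip f).comp continuous_subtype_val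
  obtain ⟨z, z0, hz⟩ : ∃ z : X, z ≠ 0 ∧ f.prod g z = 0 := by
    by_contra! hc
    exact hX (FiniteDimensional.of_injective (f.prod g : X →ₗ[𝕜] 𝕜 × 𝕜)
      ((injective_iff_map_eq_zero _).2 fun z hz => by_contra fun h0 => hc z h0 hz))
  have z1 : f z = 0 := congrArg Prod.fst hz
  have z2 : g z = 0 := congrArg Prod.snd hz
  have hn0 := norm_pos_iff.2 z0
  obtain ⟨t, -, ht⟩ : (1 : ℝ) ∈ (fun t : ℝ => ‖w + (t : 𝕜) • z‖) '' Icc 0 (2 / ‖z‖) := by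
    refine intermediate_value_Icc (by positivity) (by fun_prop) ⟨by simpa using w1, ?_⟩
    have h1 := norm_sub_le (w + ((2 / ‖z‖ : ℝ) : 𝕜) • z) w
    rw [add_sub_cancel_left, norm_smul, RCLike.norm_ofReal, abs_of_pos (by positivity),
      div_mul_cancel₀ _ hn0.ne'] at h1
    linarith
  obtain ⟨_, ⟨y, hy, θ, hθ, rfl⟩, h4, -⟩ := (h x hx
    ({y | c < RCLike.re (f ((toWeakSpace 𝕜 X).symm y.1))} ∩
      {y | ‖g ((toWeakSpace 𝕜 X).symm y.1)‖ < r})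
    ((isOpen_lt continuous_const (RCLike.continuous_re.comp (hc f))).inter
      (isOpen_lt (hc g).norm continuous_const))
    ⟨⟨toWeakSpace 𝕜 X (w + (t : 𝕜) • z), ht.le⟩, ⟨by
      show c < RCLike.re (f (w + (t : 𝕜) • z))
      rw [map_add, map_smul, z1]
      simpa using w2, by
      show ‖g (w + (t : 𝕜) • z)‖ < r
      rw [map_add, map_smul, z2]
      simpa using w3⟩, ht⟩).exists_between (by linarith : 2 - η < 2)
  exact ⟨_, ⟨y.2, hy.1, hy.2⟩, θ, y.2, hθ, h4⟩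

/-- No infinite-dimensional Banach space with the super ADP is strongly regular. -/
theorem result (𝕜 X : Type) [RCLike 𝕜] [NormedAddCommGroup X] [NormedSpace 𝕜 X]
    [NormedSpace ℝ X] [IsScalarTower ℝ 𝕜 X] [CompleteSpace X] (hX : ¬ FiniteDimensional 𝕜 X)
    (h : SuperADP 𝕜 X) : ¬ StronglyRegular 𝕜 X := by
  classical
  intro hs
  haveI : Nontrivial X := by
    by_contra hn
    rw [not_nontrivial_iff_subsingleton] at hn
    exact hX inferInstance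
  obtain ⟨g, hg⟩ := Sr.choquet (𝕜 := 𝕜) (X := X)
  let C : Set X := {w | ‖w‖ ≤ 1 ∧ ‖g w‖ ≤ 1 / 8}
  have lin : ∀ (f : X →L[𝕜] 𝕜) (t : ℝ) (w : X), f (t • w) = t • f w := fun f t w =>
    f.map_smul_of_tower t w
  have Cb : C ⊆ Metric.closedBall 0 1 := fun w hw => mem_closedBall_zero_iff.2 hw.1
  have Cc : Convex ℝ C := fun x hx y hy a b ha hb hab => ⟨mem_closedBall_zero_iff.1
    (convex_closedBall (0 : X) 1 (Cb hx) (Cb hy) ha hb hab), by
      rw [map_add, lin, lin]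
      exact mem_closedBall_zero_iff.1 (convex_closedBall (0 : 𝕜) (1 / 8)
        (mem_closedBall_zero_iff.2 hx.2) (mem_closedBall_zero_iff.2 hy.2) ha hb hab)⟩
  obtain ⟨n, f, α, l, h1, h2, h3⟩ := hs C ⟨0, by simp [C]⟩
    ((isClosed_le continuous_norm continuous_const).inter
      (isClosed_le g.continuous.norm continuous_const))
    (Metric.isBounded_closedBall.subset Cb) Cc (1 / 20) (by norm_num)
  set c : Fin n → ℝ := fun i => sSup ((fun y => RCLike.re (f i y)) '' C) - α i with hc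
  have hw : ∀ i, ∃ w : X, ‖w‖ ≤ 1 ∧ c i < RCLike.re (f i w) ∧ ‖g w‖ < 1 / 8 := fun i => by
    obtain ⟨_, ⟨v, hv, rfl⟩, h⟩ := exists_lt_of_lt_csSup
      (s := (fun y => RCLike.re (f i y)) '' C) ⟨_, 0, by simp [C], rfl⟩
      (show c i < _ from sub_lt_self _ (h1 i).2.1)
    have t1 : Tendsto (fun t : ℝ => t * RCLike.re (f i v)) (𝓝[<] 1) (𝓝 (1 * RCLike.re (f i v))) :=
      (tendsto_id.mul_const _).mono_left nhdsWithin_le_nhds
    obtain ⟨t, k1, k2⟩ := ((t1.eventually_const_lt (by rw [one_mul]; exact h)).and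
      (Ioo_mem_nhdsLT (zero_lt_one' ℝ))).exists
    refine ⟨t • v, ?_, by rwa [lin, RCLike.smul_re], ?_⟩
    · rw [norm_smul, Real.norm_of_nonneg k2.1.le]
      nlinarith [k2.1, k2.2, hv.1, norm_nonneg v]
    · rw [lin, norm_smul, Real.norm_of_nonneg k2.1.le]
      nlinarith [k2.1, k2.2, hv.2, norm_nonneg (g v)]
  choose w w1 w2 w3 using hw
  obtain ⟨D, hD, hD'⟩ := hg (Finset.univ.biUnion fun i =>
    {w i, -w i, (RCLike.I : 𝕜) • w i, -((RCLike.I : 𝕜) • w i)}) (1 / 8) (by norm_num)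
  obtain ⟨D', k1, k2, k3⟩ := Sr.refine_all
    (fun i => {y | ‖y‖ ≤ 1 ∧ c i < RCLike.re (f i y) ∧ ‖g y‖ < 1 / 8})
    (fun i => hyp hX h (f i) g (c i) (1 / 8) (w1 i) (w2 i) (w3 i)) hD
    (show (0 : ℝ) < 1 / 4 by norm_num) Finset.univ
  choose y y1 y2 using fun i => k3 i (Finset.mem_univ i)
  obtain ⟨φ, hφ⟩ := k1.nonempty
  have small : ∀ i, ‖φ (w i)‖ ≤ 1 / 2 := fun i => by
    have a : ∀ v ∈ ({w i, -w i, (RCLike.I : 𝕜) • w i, -((RCLike.I : 𝕜) • w i)} : Finset X),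
        RCLike.re (φ v) < RCLike.re (g v) + 1 / 8 := fun v hv =>
      hD' φ (k2 hφ) v (Finset.mem_biUnion.2 ⟨i, Finset.mem_univ i, hv⟩)
    have a1 := a (w i) (by simp)
    have a2 := a (-w i) (by simp)
    have a3 := a ((RCLike.I : 𝕜) • w i) (by simp)
    have a4 := a (-((RCLike.I : 𝕜) • w i)) (by simp)
    simp only [map_neg, map_smul, smul_eq_mul, RCLike.I_mul_re] at a2 a3 a4
    have b1 := abs_le.1 ((RCLike.abs_re_le_norm (g (w i))).trans (w3 i).le)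
    have b2 := abs_le.1 ((RCLike.abs_im_le_norm (g (w i))).trans (w3 i).le)
    refine abs_le_of_sq_le_sq' ?_ (by norm_num) |>.2
    rw [RCLike.norm_sq_eq_def]
    nlinarith [b1.1, b1.2, b2.1, b2.2]
  have mem : ∀ t : Finset (Fin n), ∀ i, (if i ∈ t then y i else w i) ∈ slice C (f i) (α i) :=
    fun t i => by
      split_ifs
      · exact ⟨⟨(y1 i).1, (y1 i).2.2.le⟩, (y1 i).2.1⟩
      · exact ⟨⟨w1 i, (w3 i).le⟩, w2 i⟩
  have key : ∀ t : Finset (Fin n), ‖∑ i ∈ t, l i • (φ (y i) - φ (w i))‖ ≤ 1 / 20 := fun t => by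
    have d := Metric.dist_le_diam_of_mem (Metric.isBounded_closedBall.subset (s := {z | ∃ x :
      Fin n → X, (∀ i, x i ∈ slice C (f i) (α i)) ∧ z = ∑ i, l i • x i}) fun z ⟨x, hx, e⟩ =>
        Cb (e ▸ Cc.sum_mem (fun i _ => (h1 i).2.2) h2 fun i _ => (hx i).1))
      ⟨_, mem t, rfl⟩ ⟨_, mem ∅, rfl⟩
    have e : ∑ i ∈ t, l i • (φ (y i) - φ (w i)) = φ (∑ i, l i • (if i ∈ t then y i else w i) -
        ∑ i, l i • (if i ∈ (∅ : Finset (Fin n)) then y i else w i)) := by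
      rw [← Finset.sum_sub_distrib, map_sum, ← Finset.sum_subset (Finset.subset_univ t)
        fun i _ hi => by simp [hi]]
      exact Finset.sum_congr rfl fun i hi => by simp [hi, lin, smul_sub]
    rw [e]
    rw [dist_eq_norm] at d
    linarith [φ.le_of_opNorm_le (k1.le hφ) (∑ i, l i • (if i ∈ t then y i else w i) -
        ∑ i, l i • (if i ∈ (∅ : Finset (Fin n)) then y i else w i))]
  have fin := Uab.sum_norm_le (s := Finset.univ) key
  have low : ∑ i, l i * (1 / 4) ≤ ∑ i, ‖l i • (φ (y i) - φ (w i))‖ :=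
    Finset.sum_le_sum fun i _ => by
      rw [norm_smul, Real.norm_of_nonneg (h1 i).2.2]
      refine mul_le_mul_of_nonneg_left ?_ (h1 i).2.2
      linarith [norm_sub_norm_le (φ (y i)) (φ (w i)), y2 i φ hφ, small i]
  rw [← Finset.sum_mul, h2] at low
  linarith

end Pool.Agent.Results.MP_0d3a63_an.NotSR
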